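import Mathlib

/-!
Words containing every permutation as a subsequence: basic greedy machinery.
-/

namespace H41.SuperSeq

variable {α : Type*} [DecidableEq α]

/-- number of occurrences of `z` among the first `t` letters of `w` -/
def N (w : List α) (z : α) (t : ℕ) : ℕ := (w.take t).count z

/-- the position just after the first occurrence of `z` at or after position `t` -/
def nx (w : List α) (t : ℕ) (z : α) : ℕ := t + (w.drop t).idxOf z + 1

/-- the position reached after reading greedily the word `τ` from position `t` -/
def run (w : List α) (t : ℕ) (τ : List α) : ℕ := τ.foldl (nx w) t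

lemma lt_nx (w : List α) (t : ℕ) (z : α) : t < nx w t z := by
  unfold nx; omega

lemma N_mono (w : List α) (z : α) {t t' : ℕ} (h : t ≤ t') : N w z t ≤ N w z t' := by
  unfold N
  apply List.Sublist.count_le
  have := List.take_sublist t (w.take t')
  rwa [List.take_take, min_eq_left h] at this

lemma le_run (w : List α) (τ : List α) : ∀ t : ℕ, t ≤ run w t τ := by
  induction τ with
  | nil => intro t; exact le_rfl
  | cons z τ ih =>
    intro t
    have h1 := ih (nx w t z)
    have h2 := lt_nx w t z
    have : run w t (z :: τ) = run w (nx w t z) τ := rfl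
    omega

lemma run_cons (w : List α) (t : ℕ) (z : α) (τ : List α) :
    run w t (z :: τ) = run w (nx w t z) τ := rfl

lemma run_append (w : List α) (t : ℕ) (σ τ : List α) :
    run w t (σ ++ τ) = run w (run w t σ) τ := by
  unfold run; rw [List.foldl_append]

lemma N_nx (w : List α) (t : ℕ) (z : α) (h : nx w t z ≤ w.length) :
    N w z t + 1 ≤ N w z (nx w t z) := by
  unfold nx at h
  have hlt : (w.drop t).idxOf z < (w.drop t).length := by
    rw [List.length_drop]; omega
  unfold N nx
  rw [Nat.add_assoc, List.take_add, List.count_append]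
  have hmem : z ∈ (w.drop t).take ((w.drop t).idxOf z + 1) := by
    rw [List.mem_take_iff_getElem]
    refine ⟨(w.drop t).idxOf z, ?_, ?_⟩
    · omega
    · exact List.getElem_idxOf hlt
  have := List.count_pos_iff.mpr hmem
  omega

lemma N_step (w : List α) (t Q : ℕ) (z : α) (hQ : Q ≤ w.length) (h : nx w t z ≤ Q) :
    N w z t + 1 ≤ N w z Q :=
  (N_nx w t z (h.trans hQ)).trans (N_mono w z h)

lemma run_le_of_sublist (w : List α) (τ : List α) :
    ∀ t : ℕ, t ≤ w.length → τ.Sublist (w.drop t) → run w t τ ≤ w.length := by
  induction τ with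
  | nil => intro t ht _; exact ht
  | cons z τ ih =>
    intro t ht h
    rw [List.cons_sublist_iff] at h
    obtain ⟨r₁, r₂, hr, hz, hτ⟩ := h
    have hlen : r₁.length + r₂.length = w.length - t := by
      rw [← List.length_append, ← hr, List.length_drop]
    have hidx : (w.drop t).idxOf z = r₁.idxOf z := by
      rw [hr, List.idxOf_append_of_mem hz]
    have hlt : r₁.idxOf z < r₁.length := List.idxOf_lt_length_of_mem hz
    rw [run_cons]
    apply ih
    · unfold nx; omega
    · have h2 : w.drop (nx w t z) = (r₁ ++ r₂).drop (r₁.idxOf z + 1) := by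
        unfold nx
        rw [Nat.add_assoc, ← List.drop_drop, hr, List.idxOf_append_of_mem hz]
      rw [h2]
      have h3 : (r₁ ++ r₂).drop (r₁.idxOf z + 1) = r₁.drop (r₁.idxOf z + 1) ++ r₂ := by
        rw [List.drop_append_of_le_length (by omega)]
      rw [h3]
      exact hτ.trans (List.sublist_append_right _ _)

/-- if fewer than `k` of the letters of a set of size at least `k` ... the greedy chase:
if every letter of `B` occurs fewer than `k` times between `t` and `Q`, and `B` has at least `k`
letters, then some word with at most `k` distinct letters of `B` forces the position beyond `Q` -/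
lemma chase (w : List α) (Q : ℕ) (hQ : Q ≤ w.length) :
    ∀ (k : ℕ) (t : ℕ) (B : Finset α), 1 ≤ k → k ≤ B.card →
      (∀ z ∈ B, N w z Q < N w z t + k) →
      ∃ τ : List α, τ.Nodup ∧ (∀ z ∈ τ, z ∈ B) ∧ τ.length ≤ k ∧ Q < run w t τ := by
  intro k
  induction k with
  | zero => intro t B h1; omega
  | succ k ih =>
    intro t B _ hB hN
    have hne : B.Nonempty := by
      rw [← Finset.card_pos]; omega
    obtain ⟨z, hz, hmax⟩ := Finset.exists_max_image B (fun z => nx w t z) hne
    by_cases hnx : Q < nx w t z
    · refine ⟨[z], List.nodup_singleton z, ?_, ?_, ?_⟩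
      · intro y hy; rw [List.mem_singleton] at hy; rwa [hy]
      · simp
      · exact hnx
    · push Not at hnx
      have hstep : ∀ y ∈ B, N w y t + 1 ≤ N w y (nx w t z) := by
        intro y hy
        exact N_step w t (nx w t z) y (hnx.trans hQ) (hmax y hy)
      rcases Nat.eq_zero_or_pos k with hk | hk
      · exfalso
        subst hk
        have h1 := hN z hz
        have h2 := N_step w t Q z hQ hnx
        omega
      · obtain ⟨τ, hnd, hsub, hlen, hrun⟩ := ih (nx w t z) (B.erase z) hk (by
          rw [Finset.card_erase_of_mem hz]; omega) (by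
          intro y hy
          have hy' := Finset.mem_of_mem_erase hy
          have h1 := hN y hy'
          have h2 := hstep y hy'
          omega)
        refine ⟨z :: τ, ?_, ?_, ?_, ?_⟩
        · rw [List.nodup_cons]
          refine ⟨fun h => ?_, hnd⟩
          exact (Finset.notMem_erase z B) (hsub z h)
        · intro y hy
          rw [List.mem_cons] at hy
          rcases hy with rfl | hy
          · exact hz
          · exact Finset.mem_of_mem_erase (hsub y hy)
        · simp; exact hlen
        · rw [run_cons]; exact hrun

/-- every word with distinct letters in `R` can be read from position `t` -/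
def Good (w : List α) (t : ℕ) (R : Finset α) : Prop :=
  ∀ τ : List α, τ.Nodup → (∀ z ∈ τ, z ∈ R) → run w t τ ≤ w.length

lemma Good.le {w : List α} {t : ℕ} {R : Finset α} (h : Good w t R) : t ≤ w.length :=
  h [] List.nodup_nil (by simp)

/-- the number of remaining occurrences, plus one -/
def g (w : List α) (z : α) (t : ℕ) : ℕ := N w z w.length - N w z t + 1

lemma Good.few {w : List α} {t : ℕ} {R : Finset α} (h : Good w t R) (k : ℕ) (hk : 1 ≤ k) :
    (R.filter (fun z => g w z t ≤ k)).card < k := by
  by_contra hcon
  push Not at hcon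
  obtain ⟨τ, hnd, hsub, hlen, hrun⟩ := chase w w.length le_rfl k t
    (R.filter (fun z => g w z t ≤ k)) hk hcon (by
      intro z hz
      rw [Finset.mem_filter] at hz
      have h1 := hz.2
      unfold g at h1
      have h2 := N_mono w z h.le
      omega)
  have := h τ hnd (fun z hz => (Finset.mem_filter.mp (hsub z hz)).1)
  omega

/-- one round of the greedy adversary -/
lemma Good.round {w : List α} {t : ℕ} {R : Finset α} (h : Good w t R) (c : α → ℝ)
    (θ : ℝ) (hθ : 0 ≤ θ) :
    ∃ (t' : ℕ) (T : Finset α), t ≤ t' ∧ T ⊆ R ∧ ∑ z ∈ T, c z ≤ θ ∧ Good w t' (R \ T) ∧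
      ∀ k : ℕ, 1 ≤ k →
        (R.filter (fun z => N w z t' - N w z t + 1 ≤ k ∧ (k : ℝ) * c z ≤ θ)).card < k := by
  classical
  let P : ℕ → Prop := fun v => ∃ τ : List α, τ.Nodup ∧ (∀ z ∈ τ, z ∈ R) ∧
    ∑ z ∈ τ.toFinset, c z ≤ θ ∧ run w t τ = v
  have hP0 : P t := ⟨[], List.nodup_nil, by simp, by simpa using hθ, rfl⟩
  have hPle : ∀ v, P v → v ≤ w.length := by
    rintro v ⟨τ, hnd, hsub, _, rfl⟩
    exact h τ hnd hsub
  set v := Nat.findGreatest P w.length with hv
  have hPv : P v := Nat.findGreatest_spec h.le hP0
  have hmax : ∀ u, P u → u ≤ v := fun u hu => Nat.le_findGreatest (hPle u hu) hu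
  obtain ⟨τ, hnd, hsub, hsum, hrun⟩ := hPv
  refine ⟨v, τ.toFinset, ?_, ?_, hsum, ?_, ?_⟩
  · exact hmax t hP0
  · intro z hz; exact hsub z (List.mem_toFinset.mp hz)
  · intro σ hσ hσsub
    have := h (τ ++ σ) (by
      rw [List.nodup_append]
      refine ⟨hnd, hσ, ?_⟩
      intro a ha b hb hab
      subst hab
      have := hσsub a hb
      rw [Finset.mem_sdiff, List.mem_toFinset] at this
      exact this.2 ha) (by
      intro z hz
      rw [List.mem_append] at hz
      rcases hz with hz | hz
      · exact hsub z hz
      · exact (Finset.mem_sdiff.mp (hσsub z hz)).1)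
    rwa [run_append, hrun] at this
  · intro k hk
    by_contra hcon
    push Not at hcon
    have hvle : v ≤ w.length := hPle v ⟨τ, hnd, hsub, hsum, hrun⟩
    obtain ⟨σ, hσnd, hσsub, hσlen, hσrun⟩ := chase w v hvle k t
      (R.filter (fun z => N w z v - N w z t + 1 ≤ k ∧ (k : ℝ) * c z ≤ θ)) hk hcon (by
        intro z hz
        rw [Finset.mem_filter] at hz
        have h1 := hz.2.1
        omega)
    have hP : P (run w t σ) := by
      refine ⟨σ, hσnd, fun z hz => (Finset.mem_filter.mp (hσsub z hz)).1, ?_, rfl⟩
      have hkpos : (0 : ℝ) < k := by exact_mod_cast hk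
      calc ∑ z ∈ σ.toFinset, c z ≤ ∑ z ∈ σ.toFinset, θ / k := by
            apply Finset.sum_le_sum
            intro z hz
            have := (Finset.mem_filter.mp (hσsub z (List.mem_toFinset.mp hz))).2.2
            rw [le_div_iff₀ hkpos]
            linarith
        _ = σ.toFinset.card * (θ / k) := by rw [Finset.sum_const, nsmul_eq_mul]
        _ ≤ k * (θ / k) := by
            apply mul_le_mul_of_nonneg_right _ (by positivity)
            have : σ.toFinset.card ≤ k := (List.toFinset_card_le σ).trans hσlen
            exact_mod_cast this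
        _ = θ := by field_simp
    have := hmax _ hP
    omega

end H41.SuperSeq
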