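import Pool.Agent.H41.SuperSeq.Main

/-!
The lower bound for words that contain every word with distinct letters.
-/

namespace H41.SuperSeq

lemma sum_log_le (M : ℕ) :
    ∑ i ∈ Finset.range M, Real.log (((M : ℝ) + 1) / ((i : ℝ) + 1)) ≤ (M : ℝ) + 1 := by
  have h1 : ∀ k : ℕ, ∑ i ∈ Finset.range k, Real.log ((i : ℝ) + 1) = Real.log (k.factorial : ℝ) := by
    intro k
    induction k with
    | zero => simp
    | succ k ih =>
      rw [Finset.sum_range_succ, ih, Nat.factorial_succ]
      push_cast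
      rw [Real.log_mul (by positivity) (by positivity)]
      ring
  have hfac : (0 : ℝ) < (M.factorial : ℝ) := by exact_mod_cast Nat.factorial_pos M
  have h2 : ∑ i ∈ Finset.range M, Real.log (((M : ℝ) + 1) / ((i : ℝ) + 1)) =
      Real.log (((M : ℝ) + 1) ^ M / (M.factorial : ℝ)) := by
    rw [Real.log_div (by positivity) (by positivity), Real.log_pow, ← h1 M]
    rw [show (M : ℝ) * Real.log ((M : ℝ) + 1) = ∑ i ∈ Finset.range M, Real.log ((M : ℝ) + 1) by
      rw [Finset.sum_const, Finset.card_range, nsmul_eq_mul]]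
    rw [← Finset.sum_sub_distrib]
    apply Finset.sum_congr rfl
    intro i _
    rw [Real.log_div (by positivity) (by positivity)]
  rw [h2]
  have h3 := Real.pow_div_factorial_le_exp ((M : ℝ) + 1) (by positivity) M
  calc Real.log (((M : ℝ) + 1) ^ M / (M.factorial : ℝ)) ≤ Real.log (Real.exp ((M : ℝ) + 1)) :=
        Real.log_le_log (by positivity) h3
    _ = (M : ℝ) + 1 := Real.log_exp _

lemma log_eight : Real.log 8 ≤ 2.08 := by
  have h : (8 : ℝ) = 2 ^ 3 := by norm_num
  rw [h, Real.log_pow]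
  have := Real.log_two_lt_d9
  push_cast
  linarith

lemma sum_E_le (G1 : ℝ) (M : ℕ) (hG : G1 ≤ 8 * ((M : ℝ) + 1) ^ 2) (hM : (M : ℝ) ^ 2 ≤ G1)
    (hG0 : 0 < G1) :
    ∑ i ∈ Finset.Ico 4 (M + 1), E G1 i ≤ 50 * ((M : ℝ) + 1) := by
  have h1 : ∑ i ∈ Finset.Ico 4 (M + 1), E G1 i ≤ ∑ i ∈ Finset.Ico 1 (M + 1), E G1 i := by
    apply Finset.sum_le_sum_of_subset_of_nonneg
    · intro i hi
      rw [Finset.mem_Ico] at hi ⊢
      omega
    · intro i hi _
      rw [Finset.mem_Ico] at hi
      apply E_nonneg G1 i hi.1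
      refine le_trans ?_ hM
      have : (i : ℝ) ≤ M := by
        have : i ≤ M := by omega
        exact_mod_cast this
      have : (0 : ℝ) ≤ i := Nat.cast_nonneg i
      nlinarith
  refine h1.trans ?_
  rw [Finset.sum_Ico_eq_sum_range]
  have h2 : M + 1 - 1 = M := by omega
  rw [h2]
  have h3 : ∀ i ∈ Finset.range M, E G1 (1 + i) ≤
      34 + 16 * Real.log (((M : ℝ) + 1) / ((i : ℝ) + 1)) := by
    intro i _
    unfold E
    have h4 : G1 / ((1 + i : ℕ) : ℝ) ^ 2 ≤ 8 * ((((M : ℝ) + 1) / ((i : ℝ) + 1)) ^ 2) := by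
      rw [div_pow, ← mul_div_assoc]
      push_cast
      rw [add_comm (1 : ℝ) (i : ℝ)]
      exact div_le_div_of_nonneg_right hG (by positivity)
    have h5 : Real.log (G1 / ((1 + i : ℕ) : ℝ) ^ 2) ≤
        Real.log 8 + 2 * Real.log (((M : ℝ) + 1) / ((i : ℝ) + 1)) := by
      calc Real.log (G1 / ((1 + i : ℕ) : ℝ) ^ 2)
          ≤ Real.log (8 * ((((M : ℝ) + 1) / ((i : ℝ) + 1)) ^ 2)) :=
            Real.log_le_log (by positivity) h4
        _ = _ := by
            rw [Real.log_mul (by norm_num) (by positivity), Real.log_pow]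
            push_cast
            ring
    have := log_eight
    linarith
  refine (Finset.sum_le_sum h3).trans ?_
  rw [Finset.sum_add_distrib, ← Finset.mul_sum, Finset.sum_const, Finset.card_range, nsmul_eq_mul]
  have := sum_log_le M
  linarith

variable {n : ℕ}

lemma sum_count (w : List (Fin n)) : ∑ z : Fin n, w.count z = w.length := by
  have := Multiset.sum_count_eq_card (s := (Finset.univ : Finset (Fin n))) (m := (w : Multiset (Fin n)))
    (fun a _ => Finset.mem_univ a)
  simpa using this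

lemma sum_g (w : List (Fin n)) : ∑ z : Fin n, (g w z 0 : ℝ) = (w.length : ℝ) + n := by
  have h1 : ∀ z : Fin n, (g w z 0 : ℝ) = (w.count z : ℝ) + 1 := by
    intro z
    unfold g N
    simp
  rw [Finset.sum_congr rfl (fun z _ => h1 z), Finset.sum_add_distrib]
  rw [← Nat.cast_sum, sum_count w]
  simp

/-- a lower bound for the initial potential -/
lemma initial (w : List (Fin n)) (x G : ℝ) (hG : 0 < G) (hx : 0 < x) (hxG : 2 * x ≤ G)
    (hGn : G ≤ n) :
    2 * n / G - ((w.length : ℝ) + n) / G ^ 2 ≤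
      Phi w x 0 (Finset.univ.filter (fun z : Fin n => (g w z 0 : ℝ) ≤ 2 * n)) := by
  have h1 : ∀ z : Fin n, 2 / G - (g w z 0 : ℝ) / G ^ 2 ≤
      if ((g w z 0 : ℝ) ≤ 2 * n) then 1 / max (g w z 0 : ℝ) x else 0 := by
    intro z
    have hg1 : (1 : ℝ) ≤ g w z 0 := by exact_mod_cast one_le_g w z 0
    set γ := (g w z 0 : ℝ) with hγ
    have hγpos : 0 < γ := by linarith
    split_ifs with hc
    · rcases le_total x γ with hxγ | hxγ
      · rw [max_eq_left hxγ]
        have : 1 / γ - (2 / G - γ / G ^ 2) = (γ - G) ^ 2 / (γ * G ^ 2) := by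
          field_simp
          ring
        have h2 : 0 ≤ (γ - G) ^ 2 / (γ * G ^ 2) := by positivity
        linarith
      · rw [max_eq_right hxγ]
        have h2 : 2 / G ≤ 1 / x := by
          rw [div_le_div_iff₀ hG hx]; linarith
        have h3 : 0 ≤ γ / G ^ 2 := by positivity
        linarith
    · push Not at hc
      have h2 : 2 / G ≤ γ / G ^ 2 := by
        rw [div_le_div_iff₀ hG (by positivity)]
        nlinarith
      linarith
  have h2 := Finset.sum_le_sum (fun z (_ : z ∈ (Finset.univ : Finset (Fin n))) => h1 z)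
  rw [← Finset.sum_filter] at h2
  unfold Phi
  refine le_trans (le_of_eq ?_) h2
  rw [Finset.sum_sub_distrib, Finset.sum_const, ← Finset.sum_div, sum_g w, Finset.card_univ,
    Fintype.card_fin, nsmul_eq_mul]
  ring

/-- the main bound, with `s = √n` -/
theorem main (w : List (Fin n)) (hgood : Good w 0 Finset.univ) (s : ℝ) (hs : 160 < s)
    (hsn : s ^ 2 = n) : s ^ 4 - 160 * s ^ 3 ≤ w.length := by
  classical
  by_contra hcon
  push Not at hcon
  have hs0 : 0 < s := by linarith
  have hn : (n : ℝ) = s ^ 2 := hsn.symm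
  set M := ⌊s / 2⌋₊ with hM
  have hMle : (M : ℝ) ≤ s / 2 := Nat.floor_le (by positivity)
  have hMlt : s / 2 < (M : ℝ) + 1 := Nat.lt_floor_add_one _
  have hM3 : 3 ≤ M := by
    have h1 : (3 : ℝ) ≤ s / 2 := by linarith
    exact Nat.le_floor (by exact_mod_cast h1)
  have hMpos : (0 : ℝ) < M := by
    have : (3 : ℝ) ≤ M := by exact_mod_cast hM3
    linarith
  set R0 := Finset.univ.filter (fun z : Fin n => (g w z 0 : ℝ) ≤ 2 * n) with hR0
  have hgood0 : Good w 0 R0 := by
    intro τ hnd _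
    exact hgood τ hnd (fun z _ => Finset.mem_univ z)
  have hcard : R0.card ≤ n := by
    have := Finset.card_le_univ R0
    rwa [Fintype.card_fin] at this
  have hM2 : (M : ℝ) ^ 2 ≤ s ^ 2 / 4 := by nlinarith
  have hG1 : (M : ℝ) ^ 2 ≤ 2 * (n : ℝ) := by rw [hn]; nlinarith [sq_nonneg s]
  have hrec := recursion w (2 * (n : ℝ)) n M hM3 hG1 0 R0 hgood0 hcard (by
    intro z hz
    exact (Finset.mem_filter.mp hz).2)
  have hsum := sum_E_le (2 * (n : ℝ)) M (by rw [hn]; nlinarith) hG1 (by rw [hn]; positivity)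
  have hsq : Real.sqrt n = s := by
    rw [hn]; exact Real.sqrt_sq hs0.le
  rw [hsq] at hrec
  set P := Phi w ((M : ℝ) ^ 2) 0 R0 with hP
  -- upper bound for the potential
  have hY : (M : ℝ) * (M + 1) * (P - 1) ≤ 37 * s + 50 := by nlinarith
  have hMM : (s / 2 - 1) * (s / 2) ≤ (M : ℝ) * (M + 1) := by nlinarith
  have hPup : P ≤ 1 + 153 / s := by
    by_contra hc
    push Not at hc
    have h1 : 153 / s < P - 1 := by linarith
    have h2 : 0 < 153 / s := by positivity
    have h3 : (s / 2 - 1) * (s / 2) * (153 / s) ≤ (M : ℝ) * (M + 1) * (P - 1) := by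
      apply mul_le_mul hMM h1.le h2.le (by positivity)
    have h4 : (s / 2 - 1) * (s / 2) * (153 / s) = (s / 2 - 1) * (153 / 2) := by
      field_simp
    rw [h4] at h3
    linarith
  have h153 : 153 / s < 1 := by rw [div_lt_one hs0]; linarith
  set m := (w.length : ℝ) with hm
  have hm0 : 0 ≤ m := Nat.cast_nonneg _
  have hmn : m + s ^ 2 < s ^ 4 := by
    have : s ^ 2 ≤ 160 * s ^ 3 := by nlinarith [pow_pos hs0 2]
    linarith
  have hx : (0 : ℝ) < (M : ℝ) ^ 2 := by positivity
  -- lower bound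
  rcases le_total ((m + s ^ 2) / s ^ 2) (s ^ 2 / 2) with hA | hA
  · have h1 := initial w ((M : ℝ) ^ 2) (s ^ 2 / 2) (by positivity) hx (by linarith)
      (by rw [hn]; nlinarith [pow_pos hs0 2])
    rw [← hR0, ← hP, hn] at h1
    have h2 : (m + s ^ 2) ≤ s ^ 2 / 2 * s ^ 2 := by
      rwa [div_le_iff₀ (by positivity)] at hA
    have h3 : (m + s ^ 2) / (s ^ 2 / 2) ^ 2 ≤ 2 := by
      rw [div_le_iff₀ (by positivity)]
      nlinarith
    have h4 : 2 * s ^ 2 / (s ^ 2 / 2) = 4 := by field_simp; norm_num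
    rw [h4] at h1
    linarith
  · set A := (m + s ^ 2) / s ^ 2 with hAdef
    have hApos : 0 < A := by rw [hAdef]; positivity
    have hAn : A ≤ s ^ 2 := by
      rw [hAdef, div_le_iff₀ (by positivity)]
      nlinarith
    have h1 := initial w ((M : ℝ) ^ 2) A hApos hx (by linarith) (by rw [hn]; exact hAn)
    rw [← hR0, ← hP, hn] at h1
    have h2 : m + s ^ 2 = A * s ^ 2 := by rw [hAdef]; field_simp
    have h3 : 2 * s ^ 2 / A - (m + s ^ 2) / A ^ 2 = s ^ 2 / A := by
      rw [h2]; field_simp; ring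
    rw [h3] at h1
    have h4 : s ^ 2 / A ≤ 1 + 153 / s := h1.trans hPup
    rw [div_le_iff₀ hApos] at h4
    -- s^2 ≤ (1 + 153/s) A, so A ≥ s^2 - 153 s
    have h5 : s ^ 2 - 153 * s ≤ A := by
      have h6 : (1 - 153 / s) * s ^ 2 ≤ (1 - 153 / s) * ((1 + 153 / s) * A) :=
        mul_le_mul_of_nonneg_left h4 (by linarith)
      have h7 : (1 - 153 / s) * s ^ 2 = s ^ 2 - 153 * s := by field_simp
      have h8 : (1 - 153 / s) * ((1 + 153 / s) * A) = A - (153 / s) ^ 2 * A := by ring
      have h9 : 0 ≤ (153 / s) ^ 2 * A := by positivity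
      linarith
    have h6 : s ^ 2 * (s ^ 2 - 153 * s) ≤ s ^ 2 * A :=
      mul_le_mul_of_nonneg_left h5 (by positivity)
    have h7 : s ^ 2 * A = m + s ^ 2 := by rw [h2]; ring
    nlinarith [pow_pos hs0 2, pow_pos hs0 3]

end H41.SuperSeq
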