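import Pool.Agent.H41.SuperSeq.Round

/-!
The recursion over the rounds.
-/

namespace H41.SuperSeq

variable {α : Type*} [DecidableEq α]

/-- the error term of one round -/
noncomputable def E (G1 : ℝ) (i : ℕ) : ℝ := 17 + 8 * Real.log (G1 / (i : ℝ) ^ 2)

lemma E_nonneg (G1 : ℝ) (i : ℕ) (hi : 1 ≤ i) (h : (i : ℝ) ^ 2 ≤ G1) : 0 ≤ E G1 i := by
  unfold E
  have h1 : (0 : ℝ) < i := by exact_mod_cast hi
  have : 0 ≤ Real.log (G1 / (i : ℝ) ^ 2) := by
    apply Real.log_nonneg
    rw [one_le_div (by positivity)]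
    exact h
  linarith

/-- the recursion: `j (j+1) (Φ_j - 1)` is bounded by the base value plus the errors -/
lemma recursion (w : List α) (G1 : ℝ) (n : ℕ) (j : ℕ) (hj : 3 ≤ j) (hjG : (j : ℝ) ^ 2 ≤ G1) :
    ∀ (t : ℕ) (R : Finset α), Good w t R → R.card ≤ n → (∀ z ∈ R, (g w z t : ℝ) ≤ G1) →
      (j : ℝ) * (j + 1) * (Phi w ((j : ℝ) ^ 2) t R - 1) ≤
        12 * Real.sqrt n + ∑ i ∈ Finset.Ico 4 (j + 1), E G1 i := by
  induction j, hj using Nat.le_induction with
  | base =>
    intro t R hgood hcard _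
    have h1 : Phi w (((3 : ℕ) : ℝ) ^ 2) t R ≤ Real.sqrt n := by
      have h2 : Phi w (((3 : ℕ) : ℝ) ^ 2) t R ≤ ∑ z ∈ R, (1 : ℝ) / (g w z t : ℝ) := by
        unfold Phi
        apply Finset.sum_le_sum
        intro z _
        apply one_div_le_one_div_of_le _ (le_max_left _ _)
        have := one_le_g w z t
        have : (1 : ℝ) ≤ g w z t := by exact_mod_cast this
        linarith
      have h3 := sum_inv_le (fun z => g w z t) R (fun k hk => hgood.few k hk)
        (fun z => one_le_g w z t)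
      have h4 := harm_le_sqrt R.card
      have h5 : Real.sqrt R.card ≤ Real.sqrt n := by
        apply Real.sqrt_le_sqrt
        exact_mod_cast hcard
      exact h2.trans (h3.trans (h4.trans h5))
    have h6 : Finset.Ico 4 (3 + 1) = (∅ : Finset ℕ) := by rfl
    rw [h6, Finset.sum_empty]
    push_cast at h1 ⊢
    nlinarith
  | succ j hj ih =>
    intro t R hgood hcard hG
    have hj3 : (3 : ℝ) ≤ j := by exact_mod_cast hj
    have hjG' : (j : ℝ) ^ 2 ≤ G1 := by
      refine le_trans ?_ hjG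
      push_cast
      nlinarith
    have ih := ih hjG'
    have hE : 0 ≤ ∑ i ∈ Finset.Ico 4 (j + 1), E G1 i := by
      apply Finset.sum_nonneg
      intro i hi
      rw [Finset.mem_Ico] at hi
      apply E_nonneg G1 i (by omega)
      refine le_trans ?_ hjG'
      have : (i : ℝ) ≤ j := by
        have : i ≤ j := by omega
        exact_mod_cast this
      have : (0 : ℝ) ≤ i := Nat.cast_nonneg i
      nlinarith
    have hE1 : 0 ≤ E G1 (j + 1) := E_nonneg G1 (j + 1) (by omega) hjG
    rw [Finset.sum_Ico_succ_top (by omega : 4 ≤ j + 1)]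
    set x : ℝ := (((j + 1 : ℕ)) : ℝ) ^ 2 with hx
    have hxval : x = ((j : ℝ) + 1) ^ 2 := by rw [hx]; push_cast; ring
    have hxpos : 0 < x := by rw [hxval]; positivity
    set P := Phi w x t R with hP
    by_cases hneg : P - 1 ≤ 0
    · have h1 : (((j + 1 : ℕ) : ℝ)) * (((j + 1 : ℕ) : ℝ) + 1) * (P - 1) ≤ 0 := by
        apply mul_nonpos_of_nonneg_of_nonpos _ hneg
        positivity
      have h2 : 0 ≤ 12 * Real.sqrt n := by positivity
      linarith
    · push Not at hneg
      set θ : ℝ := (2 * (j : ℝ) + 1) / (j : ℝ) ^ 2 with hθ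
      have hjpos : (0 : ℝ) < j := by linarith
      have hθpos : 0 < θ := by rw [hθ]; positivity
      have h1θ : 1 + θ = ((j : ℝ) + 1) ^ 2 / (j : ℝ) ^ 2 := by
        rw [hθ]; field_simp; ring
      have hxdiv : x / (1 + θ) = (j : ℝ) ^ 2 := by
        rw [h1θ, hxval]; field_simp
      have hθx : 1 ≤ θ * x := by
        rw [hθ, hxval, div_mul_eq_mul_div, one_le_div (by positivity)]
        nlinarith
      obtain ⟨t', R', htt', hRR', hgood', hstep⟩ :=
        step hgood x θ G1 hxpos hθpos hθx hjG hG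
      rw [hxdiv] at hstep
      have hrec := ih t' R' hgood' ((Finset.card_le_card hRR').trans hcard) (by
        intro z hz
        refine le_trans ?_ (hG z (hRR' hz))
        exact_mod_cast g_anti w z htt')
      set P' := Phi w ((j : ℝ) ^ 2) t' R' with hP'
      set L := Real.log (G1 / x) with hL
      have hL0 : 0 ≤ L := by
        rw [hL]
        apply Real.log_nonneg
        rw [one_le_div hxpos]
        exact hjG
      have hEval : E G1 (j + 1) = 17 + 8 * L := by
        unfold E
        rw [hL, hx]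
      -- the algebra
      have h2 : (j : ℝ) * (j + 1) * ((P - 1) * (1 + θ) - θ ^ 2 * (2 + L) - P / x)
          ≤ (j : ℝ) * (j + 1) * (P' - 1) :=
        mul_le_mul_of_nonneg_left hstep (by positivity)
      have h3 : (j : ℝ) * (j + 1) * θ ^ 2 ≤ 8 := by
        rw [hθ, div_pow, mul_div_assoc', div_le_iff₀ (by positivity)]
        have : 0 ≤ (j : ℝ) - 3 := by linarith
        have e : 8 * ((j : ℝ) ^ 2) ^ 2 - (j : ℝ) * (j + 1) * (2 * (j : ℝ) + 1) ^ 2
          = (j : ℝ) * (4 * (j : ℝ) ^ 3 - 8 * (j : ℝ) ^ 2 - 5 * j - 1) := by ring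
        have e2 : 0 ≤ 4 * (j : ℝ) ^ 3 - 8 * (j : ℝ) ^ 2 - 5 * j - 1 := by
          nlinarith [mul_nonneg this (sq_nonneg (j : ℝ)), mul_nonneg this hjpos.le]
        have := mul_nonneg hjpos.le e2
        linarith
      have h4 : (j : ℝ) * (j + 1) * θ ^ 2 * (2 + L) ≤ 8 * (2 + L) :=
        mul_le_mul_of_nonneg_right h3 (by linarith)
      have h5 : (j : ℝ) * (j + 1) * (P / x) = (j : ℝ) / (j + 1) * P := by
        rw [hxval]; field_simp
      have h6 : (j : ℝ) * (j + 1) * ((P - 1) * (1 + θ)) =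
          ((j : ℝ) + 1) ^ 3 / j * (P - 1) := by
        rw [h1θ]; field_simp
      have h8 : (j : ℝ) / (j + 1) ≤ 1 := by
        rw [div_le_one (by positivity)]; linarith
      have h7 : ((j : ℝ) + 1) * (j + 2) * (P - 1) + (j : ℝ) / (j + 1) * (P - 1) ≤
          ((j : ℝ) + 1) ^ 3 / j * (P - 1) := by
        rw [← add_mul]
        apply mul_le_mul_of_nonneg_right _ hneg.le
        have h9 : ((j : ℝ) + 1) * (j + 2) + 1 ≤ ((j : ℝ) + 1) ^ 3 / j := by
          rw [le_div_iff₀ hjpos]
          nlinarith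
        linarith
      push_cast
      rw [hEval]
      nlinarith

end H41.SuperSeq
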