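import Mathlib

/-!
Elementary sums used in the lower bound for universal supersequences.
-/

namespace H41.SuperSeq

lemma harm_le_sqrt (n : ℕ) :
    ∑ i ∈ Finset.range n, (1 : ℝ) / ((i : ℝ) + 2) ≤ Real.sqrt n := by
  induction n with
  | zero => simp
  | succ n ih =>
    rw [Finset.sum_range_succ]
    have hn : (0 : ℝ) ≤ n := Nat.cast_nonneg n
    set a := Real.sqrt n with ha
    set b := Real.sqrt ((n + 1 : ℕ) : ℝ) with hb
    have ha2 : a * a = n := Real.mul_self_sqrt hn
    have hb2 : b * b = n + 1 := by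
      rw [hb, Real.mul_self_sqrt (by positivity)]; push_cast; ring
    have ha0 : 0 ≤ a := Real.sqrt_nonneg _
    have hb0 : 0 < b := Real.sqrt_pos.mpr (by positivity)
    have hab : a ≤ b := Real.sqrt_le_sqrt (by push_cast; linarith)
    have h2b : 2 * b ≤ n + 2 := by nlinarith [sq_nonneg (b - 1)]
    have h1 : (1 : ℝ) / ((n : ℝ) + 2) ≤ 1 / (2 * b) :=
      one_div_le_one_div_of_le (by positivity) h2b
    have h2 : (1 : ℝ) / (2 * b) ≤ b - a := by
      rw [div_le_iff₀ (by positivity)]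
      nlinarith
    linarith

lemma sum_inv_le {α : Type*} [DecidableEq α] (g : α → ℕ) (S : Finset α)
    (h : ∀ k : ℕ, 1 ≤ k → (S.filter (fun z => g z ≤ k)).card < k)
    (hg : ∀ z, 1 ≤ g z) :
    ∑ z ∈ S, (1 : ℝ) / (g z : ℝ) ≤ ∑ i ∈ Finset.range S.card, (1 : ℝ) / ((i : ℝ) + 2) := by
  revert h
  refine Finset.induction_on_max_value g (motive := fun S =>
    (∀ k : ℕ, 1 ≤ k → (S.filter (fun z => g z ≤ k)).card < k) →
    ∑ z ∈ S, (1 : ℝ) / (g z : ℝ) ≤ ∑ i ∈ Finset.range S.card, (1 : ℝ) / ((i : ℝ) + 2)) S ?_ ?_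
  · intro _; simp
  · intro a s ha hmax ih h
    have h' : ∀ k : ℕ, 1 ≤ k → (s.filter (fun z => g z ≤ k)).card < k := by
      intro k hk
      refine lt_of_le_of_lt (Finset.card_le_card ?_) (h k hk)
      exact Finset.filter_subset_filter _ (Finset.subset_insert a s)
    have hcard : s.card + 1 < g a := by
      have h1 := h (g a) (hg a)
      have h2 : (insert a s).filter (fun z => g z ≤ g a) = insert a s := by
        apply Finset.filter_true_of_mem
        intro z hz
        rw [Finset.mem_insert] at hz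
        rcases hz with rfl | hz
        · exact le_rfl
        · exact hmax z hz
      rw [h2, Finset.card_insert_of_notMem ha] at h1
      exact h1
    rw [Finset.sum_insert ha, Finset.card_insert_of_notMem ha, Finset.sum_range_succ]
    have h3 : (1 : ℝ) / (g a : ℝ) ≤ 1 / ((s.card : ℝ) + 2) := by
      apply one_div_le_one_div_of_le (by positivity)
      have : s.card + 2 ≤ g a := hcard
      exact_mod_cast this
    have := ih h'
    linarith

lemma sum_defect {α : Type*} [DecidableEq α] (S : Finset α) (k : α → ℕ) (κ : α → ℝ) (κ0 : ℝ)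
    (K : ℕ) (hκ0 : 1 ≤ κ0) (h0 : ∀ z ∈ S, κ0 ≤ κ z) (h1 : ∀ z ∈ S, ⌊κ z⌋₊ ≤ K)
    (hk : ∀ z ∈ S, 1 ≤ k z)
    (h : ∀ l : ℕ, 1 ≤ l → (S.filter (fun z => k z ≤ l ∧ (l : ℝ) ≤ κ z)).card < l) :
    ∑ z ∈ S, (1 / κ z) * max (1 - k z / κ z) 0
      ≤ ∑ l ∈ Finset.range K, (l : ℝ) / (max ((l : ℝ) + 1) κ0) ^ 2 := by
  have hz : ∀ z ∈ S, (1 / κ z) * max (1 - k z / κ z) 0 ≤
      ∑ l ∈ Finset.range K, (if (k z ≤ l + 1 ∧ ((l + 1 : ℕ) : ℝ) ≤ κ z) then
        1 / (max ((l : ℝ) + 1) κ0) ^ 2 else 0) := by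
    intro z hz
    have hκpos : 0 < κ z := by linarith [h0 z hz]
    have hnn : ∀ l ∈ Finset.range K, (0 : ℝ) ≤
        (if (k z ≤ l + 1 ∧ ((l + 1 : ℕ) : ℝ) ≤ κ z) then
        1 / (max ((l : ℝ) + 1) κ0) ^ 2 else 0) := by
      intro l _
      split_ifs
      · positivity
      · exact le_rfl
    by_cases hc : (k z : ℝ) ≤ κ z
    · have hfl : (k z) ≤ ⌊κ z⌋₊ := Nat.le_floor hc
      have hsub : Finset.Ico (k z - 1) ⌊κ z⌋₊ ⊆ Finset.range K := by
        intro l hl
        rw [Finset.mem_Ico] at hl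
        rw [Finset.mem_range]
        have := h1 z hz
        omega
      calc (1 / κ z) * max (1 - k z / κ z) 0 = (κ z - k z) * (1 / κ z ^ 2) := by
            rw [max_eq_left]
            · field_simp
            · rw [sub_nonneg, div_le_one hκpos]; exact hc
        _ ≤ ((⌊κ z⌋₊ - (k z - 1) : ℕ) : ℝ) * (1 / κ z ^ 2) := by
            apply mul_le_mul_of_nonneg_right _ (by positivity)
            have h2 : κ z < ⌊κ z⌋₊ + 1 := Nat.lt_floor_add_one _
            have h3 : k z - 1 ≤ ⌊κ z⌋₊ := by omega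
            have h4 : 1 ≤ k z := hk z hz
            push_cast [Nat.cast_sub h3, Nat.cast_sub h4]
            linarith
        _ = ∑ l ∈ Finset.Ico (k z - 1) ⌊κ z⌋₊, (1 / κ z ^ 2) := by
            rw [Finset.sum_const, Nat.card_Ico, nsmul_eq_mul]
        _ ≤ ∑ l ∈ Finset.Ico (k z - 1) ⌊κ z⌋₊,
              (if (k z ≤ l + 1 ∧ ((l + 1 : ℕ) : ℝ) ≤ κ z) then
                1 / (max ((l : ℝ) + 1) κ0) ^ 2 else 0) := by
            apply Finset.sum_le_sum
            intro l hl
            rw [Finset.mem_Ico] at hl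
            have h5 : k z ≤ l + 1 := by omega
            have h6 : ((l + 1 : ℕ) : ℝ) ≤ κ z := by
              refine le_trans ?_ (Nat.floor_le hκpos.le)
              have : l + 1 ≤ ⌊κ z⌋₊ := hl.2
              exact_mod_cast this
            rw [if_pos ⟨h5, h6⟩]
            apply one_div_le_one_div_of_le
            · have : 0 < max ((l : ℝ) + 1) κ0 := lt_max_of_lt_right (by linarith)
              positivity
            · have h7 : max ((l : ℝ) + 1) κ0 ≤ κ z := by
                apply max_le _ (h0 z hz)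
                push_cast at h6
                exact h6
              have h8 : 0 ≤ max ((l : ℝ) + 1) κ0 := le_max_of_le_right (by linarith)
              exact pow_le_pow_left₀ h8 h7 2
        _ ≤ _ := Finset.sum_le_sum_of_subset_of_nonneg hsub (fun l hl _ => hnn l hl)
    · push Not at hc
      have : max (1 - k z / κ z) 0 = 0 := by
        apply max_eq_right
        rw [sub_nonpos, one_le_div hκpos]
        exact hc.le
      rw [this, mul_zero]
      exact Finset.sum_nonneg hnn
  refine (Finset.sum_le_sum hz).trans ?_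
  rw [Finset.sum_comm]
  apply Finset.sum_le_sum
  intro l _
  rw [← Finset.sum_filter, Finset.sum_const, nsmul_eq_mul, mul_one_div]
  apply div_le_div_of_nonneg_right _ (by positivity)
  have := h (l + 1) (by omega)
  have h2 : (S.filter (fun z => k z ≤ l + 1 ∧ ((l + 1 : ℕ) : ℝ) ≤ κ z)).card ≤ l := by omega
  exact_mod_cast h2

lemma F_le (κ0 : ℝ) (hκ0 : 1 ≤ κ0) (K : ℕ) :
    ((K : ℝ) ≤ κ0 → ∑ l ∈ Finset.range K, (l : ℝ) / (max ((l : ℝ) + 1) κ0) ^ 2
        ≤ (K : ℝ) ^ 2 / (2 * κ0 ^ 2)) ∧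
    (κ0 ≤ (K : ℝ) → ∑ l ∈ Finset.range K, (l : ℝ) / (max ((l : ℝ) + 1) κ0) ^ 2
        ≤ 1 + Real.log (K / κ0)) := by
  have hpos : 0 < κ0 := by linarith
  induction K with
  | zero =>
    constructor
    · intro _; simp
    · intro h; simp at h; linarith
  | succ K ih =>
    obtain ⟨ih1, ih2⟩ := ih
    have hK : (0 : ℝ) ≤ K := Nat.cast_nonneg K
    have half : (K : ℝ) ≤ κ0 → (K : ℝ) ^ 2 / (2 * κ0 ^ 2) ≤ 1 / 2 := by
      intro h
      rw [div_le_div_iff₀ (by positivity) (by norm_num)]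
      nlinarith
    constructor
    · intro h
      push_cast at h
      have h1 := ih1 (by linarith)
      rw [Finset.sum_range_succ, max_eq_right h]
      have : (K : ℝ) ^ 2 / (2 * κ0 ^ 2) + K / κ0 ^ 2 ≤ ((K + 1 : ℕ) : ℝ) ^ 2 / (2 * κ0 ^ 2) := by
        rw [div_add_div _ _ (by positivity) (by positivity), div_le_div_iff₀ (by positivity)
          (by positivity)]
        push_cast
        have : 0 < κ0 ^ 2 := by positivity
        nlinarith [mul_pos this this]
      linarith
    · intro h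
      push_cast at h
      rw [Finset.sum_range_succ, max_eq_left h]
      by_cases hc : (K : ℝ) ≤ κ0
      · have h1 := ih1 hc
        have h2 := half hc
        have h3 : (K : ℝ) / ((K : ℝ) + 1) ^ 2 ≤ 1 / 4 := by
          rw [div_le_div_iff₀ (by positivity) (by norm_num)]
          nlinarith [sq_nonneg ((K : ℝ) - 1)]
        have h4 : 0 ≤ Real.log (((K + 1 : ℕ) : ℝ) / κ0) := by
          apply Real.log_nonneg
          rw [one_le_div hpos]
          push_cast; exact h
        linarith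
      · push Not at hc
        have h1 := ih2 hc.le
        have hKpos : (0 : ℝ) < K := by linarith
        have h2 : Real.log (((K + 1 : ℕ) : ℝ) / κ0) =
            Real.log (K / κ0) + Real.log (((K : ℝ) + 1) / K) := by
          rw [← Real.log_mul (by positivity) (by positivity)]
          congr 1
          push_cast
          field_simp
        have h3 : 1 - (((K : ℝ) + 1) / K)⁻¹ ≤ Real.log (((K : ℝ) + 1) / K) :=
          Real.one_sub_inv_le_log_of_pos (by positivity)
        have h4 : (K : ℝ) / ((K : ℝ) + 1) ^ 2 ≤ 1 - (((K : ℝ) + 1) / K)⁻¹ := by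
          rw [inv_div]
          have : 1 - (K : ℝ) / (K + 1) = 1 / (K + 1) := by field_simp; ring
          rw [this, div_le_div_iff₀ (by positivity) (by positivity)]
          nlinarith
        linarith

lemma F_le' (κ0 κ1 : ℝ) (hκ0 : 1 ≤ κ0) (h01 : κ0 ≤ κ1) :
    ∑ l ∈ Finset.range ⌊κ1⌋₊, (l : ℝ) / (max ((l : ℝ) + 1) κ0) ^ 2
        ≤ 1 + Real.log (κ1 / κ0) := by
  have hpos : 0 < κ0 := by linarith
  obtain ⟨h1, h2⟩ := F_le κ0 hκ0 ⌊κ1⌋₊
  have hfl : (⌊κ1⌋₊ : ℝ) ≤ κ1 := Nat.floor_le (by linarith)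
  by_cases hc : (⌊κ1⌋₊ : ℝ) ≤ κ0
  · have h3 := h1 hc
    have h4 : (⌊κ1⌋₊ : ℝ) ^ 2 / (2 * κ0 ^ 2) ≤ 1 / 2 := by
      have : (0 : ℝ) ≤ ⌊κ1⌋₊ := Nat.cast_nonneg _
      rw [div_le_div_iff₀ (by positivity) (by norm_num)]
      nlinarith
    have h5 : 0 ≤ Real.log (κ1 / κ0) := by
      apply Real.log_nonneg
      rw [one_le_div hpos]; exact h01
    linarith
  · push Not at hc
    have h3 := h2 hc.le
    have h4 : Real.log (⌊κ1⌋₊ / κ0) ≤ Real.log (κ1 / κ0) := by
      apply Real.log_le_log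
      · have : (0 : ℝ) < ⌊κ1⌋₊ := by linarith
        positivity
      · exact div_le_div_of_nonneg_right hfl hpos.le
    linarith

end H41.SuperSeq
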