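import Pool.Agent.H41.SuperSeq.Basic
import Pool.Agent.H41.SuperSeq.Sums

/-!
One round of the adversary and its effect on the potential.
-/

namespace H41.SuperSeq

variable {α : Type*} [DecidableEq α]

/-- the potential -/
noncomputable def Phi (w : List α) (x : ℝ) (t : ℕ) (R : Finset α) : ℝ :=
  ∑ z ∈ R, 1 / max (g w z t : ℝ) x

lemma one_le_g (w : List α) (z : α) (t : ℕ) : 1 ≤ g w z t := by
  unfold g; omega

lemma g_sub (w : List α) (z : α) {t t' : ℕ} (h : t ≤ t') (h' : t' ≤ w.length) :
    (g w z t' : ℝ) = g w z t - ((N w z t' - N w z t : ℕ) : ℝ) := by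
  have h1 := N_mono w z h
  have h2 := N_mono w z h'
  have : g w z t' + (N w z t' - N w z t) = g w z t := by unfold g; omega
  have : ((g w z t' + (N w z t' - N w z t) : ℕ) : ℝ) = g w z t := by rw [this]
  push_cast at this
  push_cast
  linarith

lemma g_anti (w : List α) (z : α) {t t' : ℕ} (h : t ≤ t') : g w z t' ≤ g w z t := by
  have h1 := N_mono w z h
  unfold g; omega

/-- pointwise estimate: `G` is the current count, `ν` the number of occurrences in the round -/
lemma pointwise (G ν x θ : ℝ) (hx : 0 < x) (hθ : 0 < θ) (hν : 0 ≤ ν) (hG : 0 < G - ν) :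
    (1 + θ) * (1 / max G x) - θ * ((1 / max G x) * max (1 - (ν + 1) / (θ * max G x)) 0)
      - (1 / max G x) ^ 2 ≤ 1 / max (G - ν) (x / (1 + θ)) := by
  set D := max G x with hD
  have hDpos : 0 < D := lt_max_of_lt_right hx
  have hGD : G ≤ D := le_max_left _ _
  have hxD : x ≤ D := le_max_right _ _
  have hm : 0 < max (G - ν) (x / (1 + θ)) := lt_max_of_lt_left hG
  set μ := min (ν / D) θ with hμ
  have hμ0 : 0 ≤ μ := le_min (by positivity) hθ.le
  have hμθ : μ ≤ θ := min_le_right _ _
  have hμν : μ ≤ ν / D := min_le_left _ _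
  -- first inequality
  have h1 : (1 / D) * (1 + μ) ≤ 1 / max (G - ν) (x / (1 + θ)) := by
    rw [le_div_iff₀ hm]
    have h2 : max (G - ν) (x / (1 + θ)) ≤ D / (1 + μ) := by
      apply max_le
      · rw [le_div_iff₀ (by linarith)]
        have h3 : ν = (ν / D) * D := by field_simp
        set b := ν / D with hb
        have hb0 : 0 ≤ b := by positivity
        have h4 : (G - ν) * (1 + μ) ≤ (G - ν) * (1 + b) :=
          mul_le_mul_of_nonneg_left (by linarith) hG.le
        have h5 : (G - ν) * (1 + b) ≤ (D - ν) * (1 + b) :=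
          mul_le_mul_of_nonneg_right (by linarith) (by linarith)
        have h6 : (D - ν) * (1 + b) = D * (1 - b) * (1 + b) := by rw [h3]; ring
        have h7 : D * (1 - b) * (1 + b) ≤ D := by nlinarith [mul_nonneg hDpos.le (sq_nonneg b)]
        linarith
      · rw [div_le_div_iff₀ (by linarith) (by linarith)]
        nlinarith
    calc (1 / D) * (1 + μ) * max (G - ν) (x / (1 + θ)) ≤ (1 / D) * (1 + μ) * (D / (1 + μ)) := by
          apply mul_le_mul_of_nonneg_left h2 (by positivity)
      _ = 1 := by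
          have : (1 + μ) ≠ 0 := by positivity
          field_simp
  -- second inequality
  have h8 : (1 + θ) * (1 / D) - θ * ((1 / D) * max (1 - (ν + 1) / (θ * D)) 0)
      - (1 / D) ^ 2 ≤ (1 / D) * (1 + μ) := by
    have key : θ - θ * max (1 - (ν + 1) / (θ * D)) 0 - 1 / D ≤ μ := by
      have e1 : θ * (1 - (ν + 1) / (θ * D)) = θ - ν / D - 1 / D := by
        field_simp
        ring
      apply le_min
      · have := mul_le_mul_of_nonneg_left (le_max_left (1 - (ν + 1) / (θ * D)) 0) hθ.le
        linarith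
      · have h9 : 0 ≤ θ * max (1 - (ν + 1) / (θ * D)) 0 :=
          mul_nonneg hθ.le (le_max_right _ _)
        have h10 : 0 < 1 / D := by positivity
        linarith
    have := mul_le_mul_of_nonneg_left key (show 0 ≤ 1 / D by positivity)
    nlinarith
  exact h8.trans h1

/-- the round inequality for the potential -/
lemma step {w : List α} {t : ℕ} {R : Finset α} (h : Good w t R) (x θ G1 : ℝ)
    (hx : 0 < x) (hθ : 0 < θ) (hxθ : 1 ≤ θ * x) (hxG : x ≤ G1)
    (hG : ∀ z ∈ R, (g w z t : ℝ) ≤ G1) :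
    ∃ (t' : ℕ) (R' : Finset α), t ≤ t' ∧ R' ⊆ R ∧ Good w t' R' ∧
      (Phi w x t R - 1) * (1 + θ) - θ ^ 2 * (2 + Real.log (G1 / x)) - Phi w x t R / x
        ≤ Phi w (x / (1 + θ)) t' R' - 1 := by
  classical
  set c : α → ℝ := fun z => 1 / max (g w z t : ℝ) x with hc
  obtain ⟨t', T, htt', hTR, hTsum, hgood, hfew⟩ := h.round c θ hθ.le
  refine ⟨t', R \ T, htt', Finset.sdiff_subset, hgood, ?_⟩
  have ht' : t' ≤ w.length := hgood.le
  have hcpos : ∀ z, 0 < c z := by
    intro z
    have : 0 < max (g w z t : ℝ) x := lt_max_of_lt_right hx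
    simp only [hc]; positivity
  have hcx : ∀ z, c z ≤ 1 / x := by
    intro z
    exact one_div_le_one_div_of_le hx (le_max_right _ _)
  set κ : α → ℝ := fun z => θ * max (g w z t : ℝ) x with hκ
  set kk : α → ℕ := fun z => N w z t' - N w z t + 1 with hkk
  have hPhi : Phi w x t R = ∑ z ∈ R, c z := rfl
  have hκc : ∀ z, θ * (1 / κ z) = c z := by
    intro z
    have : 0 < max (g w z t : ℝ) x := lt_max_of_lt_right hx
    simp only [hκ, hc]
    field_simp
  have hκpos : ∀ z, 0 < κ z := by
    intro z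
    have : 0 < max (g w z t : ℝ) x := lt_max_of_lt_right hx
    simp only [hκ]; positivity
  -- the defect sum
  have hdef : ∑ z ∈ R, (1 / κ z) * max (1 - kk z / κ z) 0 ≤ 1 + Real.log (G1 / x) := by
    have h1 := sum_defect R kk κ (θ * x) ⌊θ * G1⌋₊ hxθ
      (fun z _ => mul_le_mul_of_nonneg_left (le_max_right _ _) hθ.le)
      (fun z hz => Nat.floor_le_floor (mul_le_mul_of_nonneg_left (max_le (hG z hz) hxG) hθ.le))
      (fun z _ => by simp only [hkk]; omega)
      (by
        intro l hl
        refine lt_of_le_of_lt (Finset.card_le_card ?_) (hfew l hl)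
        intro z hz
        rw [Finset.mem_filter] at hz ⊢
        refine ⟨hz.1, hz.2.1, ?_⟩
        have h2 := hz.2.2
        have h3 := hκpos z
        rw [← hκc z]
        rw [show (l : ℝ) * (θ * (1 / κ z)) = θ * (l / κ z) by ring]
        have h4 : (l : ℝ) / κ z ≤ 1 := by rw [div_le_one h3]; exact h2
        nlinarith)
    have h2 := F_le' (θ * x) (θ * G1) hxθ (mul_le_mul_of_nonneg_left hxG hθ.le)
    have h3 : θ * G1 / (θ * x) = G1 / x := by field_simp
    rw [h3] at h2
    exact h1.trans h2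
  -- pointwise lower bound
  have hpt : ∀ z ∈ R \ T, (1 + θ) * c z - θ * (c z * max (1 - kk z / κ z) 0) - (c z) ^ 2
      ≤ 1 / max (g w z t' : ℝ) (x / (1 + θ)) := by
    intro z _
    have h1 := pointwise (g w z t : ℝ) ((N w z t' - N w z t : ℕ) : ℝ) x θ hx hθ
      (Nat.cast_nonneg _) (by
        rw [← g_sub w z htt' ht']
        have := one_le_g w z t'
        exact_mod_cast this)
    rw [← g_sub w z htt' ht'] at h1
    simp only [hc, hkk, hκ]
    push_cast
    exact h1
  have hsum := Finset.sum_le_sum hpt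
  rw [Finset.sum_sub_distrib, Finset.sum_sub_distrib, ← Finset.mul_sum, ← Finset.mul_sum] at hsum
  -- sum over R \ T of c
  have hsplit : ∑ z ∈ R \ T, c z = ∑ z ∈ R, c z - ∑ z ∈ T, c z := by
    rw [Finset.sum_sdiff_eq_sub hTR]
  have hA : (1 + θ) * (Phi w x t R - θ) ≤ (1 + θ) * ∑ z ∈ R \ T, c z := by
    apply mul_le_mul_of_nonneg_left _ (by linarith)
    rw [hsplit, hPhi]; linarith
  have hB : θ * ∑ z ∈ R \ T, c z * max (1 - kk z / κ z) 0 ≤ θ ^ 2 * (1 + Real.log (G1 / x)) := by
    have h1 : ∑ z ∈ R \ T, c z * max (1 - kk z / κ z) 0 ≤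
        ∑ z ∈ R, c z * max (1 - kk z / κ z) 0 := by
      apply Finset.sum_le_sum_of_subset_of_nonneg Finset.sdiff_subset
      intro z _ _
      exact mul_nonneg (hcpos z).le (le_max_right _ _)
    have h2 : ∑ z ∈ R, c z * max (1 - kk z / κ z) 0 =
        θ * ∑ z ∈ R, (1 / κ z) * max (1 - kk z / κ z) 0 := by
      rw [Finset.mul_sum]
      apply Finset.sum_congr rfl
      intro z _
      rw [← mul_assoc, hκc z]
    have h3 := mul_le_mul_of_nonneg_left hdef hθ.le
    have h4 := mul_le_mul_of_nonneg_left (h1.trans (h2 ▸ h3)) hθ.le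
    calc _ ≤ _ := h4
      _ = _ := by ring
  have hC : ∑ z ∈ R \ T, (c z) ^ 2 ≤ Phi w x t R / x := by
    have h1 : ∑ z ∈ R \ T, (c z) ^ 2 ≤ ∑ z ∈ R, (c z) ^ 2 := by
      apply Finset.sum_le_sum_of_subset_of_nonneg Finset.sdiff_subset
      intro z _ _
      positivity
    have h2 : ∑ z ∈ R, (c z) ^ 2 ≤ ∑ z ∈ R, c z / x := by
      apply Finset.sum_le_sum
      intro z _
      have := mul_le_mul_of_nonneg_left (hcx z) (hcpos z).le
      calc (c z) ^ 2 = c z * c z := by ring
        _ ≤ c z * (1 / x) := this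
        _ = c z / x := by ring
    rw [hPhi, Finset.sum_div]
    exact h1.trans h2
  have hfin : Phi w (x / (1 + θ)) t' (R \ T) =
      ∑ z ∈ R \ T, 1 / max (g w z t' : ℝ) (x / (1 + θ)) := rfl
  rw [hfin]
  nlinarith

end H41.SuperSeq
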